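import Mathlib

/-!
# Planar maps and embeddings of inverse limits in the plane

`Planar e₁ e₂ f`: the map `f` is, with respect to the embeddings `e₁`, `e₂`, a uniform limit of
restrictions of homeomorphisms of the ambient space. Compositions of such maps are of the same kind,
and the inverse limit of a sequence of compact spaces with such bonding maps embeds.
-/

set_option autoImplicit false

namespace Pool.Agent.PL

open Set Filter Topology

variable {E : Type*} [MetricSpace E]

/-- `f` is a uniform limit of homeomorphisms of the ambient space -/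
def Planar {T₁ T₂ : Type*} (e₁ : T₁ → E) (e₂ : T₂ → E) (f : T₁ → T₂) : Prop :=
  ∀ δ : ℝ, 0 < δ → ∃ h : E ≃ₜ E, ∀ x, dist (h (e₁ x)) (e₂ (f x)) < δ

theorem Planar.refl {T₁ : Type*} (e₁ : T₁ → E) : Planar e₁ e₁ id :=
  fun δ hδ => ⟨Homeomorph.refl E, fun x => by simpa using hδ⟩

/-- a homeomorphism of the ambient space is uniformly continuous near a compact set -/
theorem exists_mod [ProperSpace E] {T₂ : Type*} [TopologicalSpace T₂] [CompactSpace T₂]
    {e₂ : T₂ → E} (he₂ : Continuous e₂) (H : E ≃ₜ E) {ε : ℝ} (hε : 0 < ε) :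
    ∃ η : ℝ, 0 < η ∧ ∀ (p : E) (y : T₂), dist p (e₂ y) < η → dist (H p) (H (e₂ y)) < ε := by
  have hK : IsCompact (Metric.cthickening 1 (range e₂)) := (isCompact_range he₂).cthickening
  have hu := hK.uniformContinuousOn_of_continuous H.continuous.continuousOn
  rw [Metric.uniformContinuousOn_iff] at hu
  obtain ⟨η, hη, h⟩ := hu ε hε
  refine ⟨min η 1, lt_min hη one_pos, fun p y hp => h p ?_ (e₂ y) ?_ (lt_of_lt_of_le hp (min_le_left _ _))⟩
  · exact Metric.mem_cthickening_of_dist_le _ (e₂ y) _ _ (mem_range_self y)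
      (hp.le.trans (min_le_right _ _))
  · exact Metric.self_subset_cthickening _ (mem_range_self y)

theorem Planar.comp [ProperSpace E] {T₁ T₂ T₃ : Type*} [TopologicalSpace T₂] [CompactSpace T₂]
    {e₁ : T₁ → E} {e₂ : T₂ → E} {e₃ : T₃ → E} {f : T₁ → T₂} {g : T₂ → T₃} (he₂ : Continuous e₂)
    (hg : Planar e₂ e₃ g) (hf : Planar e₁ e₂ f) : Planar e₁ e₃ (g ∘ f) := by
  intro δ hδ
  obtain ⟨H, hH⟩ := hg (δ / 2) (by linarith)
  obtain ⟨η, hη, h1⟩ := exists_mod he₂ H (show 0 < δ / 2 by linarith)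
  obtain ⟨h, hh⟩ := hf η hη
  refine ⟨h.trans H, fun x => ?_⟩
  have h2 := h1 (h (e₁ x)) (f x) (hh x)
  have h3 := hH (f x)
  calc dist ((h.trans H) (e₁ x)) (e₃ ((g ∘ f) x))
      ≤ dist (H (h (e₁ x))) (H (e₂ (f x))) + dist (H (e₂ (f x))) (e₃ (g (f x))) :=
        dist_triangle _ _ _
    _ < δ := by linarith

/-- planarity of the restriction to a subspace -/
theorem Planar.restrict {T₁ T₂ T₀ : Type*} {e₁ : T₁ → E} {e₂ : T₂ → E} {f : T₁ → T₂}
    (hf : Planar e₁ e₂ f) (i : T₀ → T₁) : Planar (e₁ ∘ i) e₂ (f ∘ i) := by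
  intro δ hδ
  obtain ⟨h, hh⟩ := hf δ hδ
  exact ⟨h, fun x => hh (i x)⟩

/-- change of the drawings by homeomorphisms of the plane -/
theorem Planar.conj [ProperSpace E] {T₁ T₂ : Type*} [TopologicalSpace T₂] [CompactSpace T₂]
    {e₁ : T₁ → E} {e₂ : T₂ → E} {f : T₁ → T₂} (he₂ : Continuous e₂) (hf : Planar e₁ e₂ f)
    (H₁ H₂ : E ≃ₜ E) : Planar (H₁ ∘ e₁) (H₂ ∘ e₂) f := by
  intro δ hδ
  obtain ⟨η, hη, h1⟩ := exists_mod he₂ H₂ hδ
  obtain ⟨h, hh⟩ := hf η hη
  refine ⟨(H₁.symm.trans h).trans H₂, fun x => ?_⟩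
  have := h1 (h (e₁ x)) (f x) (hh x)
  simpa using this

/-- the inverse limit -/
def Lim {T : ℕ → Type*} (f : ∀ n, T (n + 1) → T n) : Set (∀ n, T n) :=
  {x | ∀ n, f n (x (n + 1)) = x n}

section

variable {T : ℕ → Type*} [∀ n, MetricSpace (T n)] [∀ n, CompactSpace (T n)]

/-- maximal distance of the images in the first `n + 1` spaces -/
private noncomputable def DD (f : ∀ n, T (n + 1) → T n) : ∀ n, T n → T n → ℝ
  | 0 => fun a b => dist a b
  | n + 1 => fun a b => max (dist a b) (DD f n (f n a) (f n b))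

private theorem DD_cont {f : ∀ n, T (n + 1) → T n} (hf : ∀ n, Continuous (f n)) (n : ℕ) :
    Continuous fun p : T n × T n => DD f n p.1 p.2 := by
  induction n with
  | zero => exact continuous_dist
  | succ n ih =>
    refine continuous_dist.max ?_
    exact ih.comp ((hf n).prodMap (hf n))

private theorem DD_self (f : ∀ n, T (n + 1) → T n) (n : ℕ) (a : T n) : DD f n a a = 0 := by
  induction n with
  | zero => exact dist_self a
  | succ n ih =>
    change max (dist a a) (DD f n (f n a) (f n a)) = 0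
    rw [ih, dist_self, max_self]

private theorem DD_ge (f : ∀ n, T (n + 1) → T n) {x y : ∀ n, T n} (hx : x ∈ Lim f) (hy : y ∈ Lim f)
    {k n : ℕ} (hkn : k ≤ n) : dist (x k) (y k) ≤ DD f n (x n) (y n) := by
  induction n with
  | zero =>
    obtain rfl : k = 0 := by omega
    exact le_rfl
  | succ n ih =>
    change _ ≤ max (dist (x (n + 1)) (y (n + 1))) (DD f n (f n (x (n + 1))) (f n (y (n + 1))))
    rcases Nat.lt_or_ge k (n + 1) with h | h
    · rw [hx n, hy n]
      exact le_max_of_le_right (ih (by omega))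
    · obtain rfl : k = n + 1 := by omega
      exact le_max_left _ _

private theorem exists_sep {f : ∀ n, T (n + 1) → T n} (hf : ∀ n, Continuous (f n)) (n : ℕ)
    {φ : T n → E} (hφ : Continuous φ) (hi : Function.Injective φ) :
    ∃ s : ℝ, 0 < s ∧ ∀ a b, 1 / ((n : ℝ) + 1) ≤ DD f n a b → s ≤ dist (φ a) (φ b) := by
  set C : Set (T n × T n) := {p | 1 / ((n : ℝ) + 1) ≤ DD f n p.1 p.2} with hC
  have hCc : IsCompact C := (isClosed_le continuous_const (DD_cont hf n)).isCompact
  rcases C.eq_empty_or_nonempty with h0 | h0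
  · refine ⟨1, one_pos, fun a b hab => ?_⟩
    exact absurd (show (a, b) ∈ C from hab) (h0 ▸ notMem_empty _)
  · have hc : Continuous fun p : T n × T n => dist (φ p.1) (φ p.2) :=
      (hφ.comp continuous_fst).dist (hφ.comp continuous_snd)
    obtain ⟨p, hp, hmin⟩ := hCc.exists_isMinOn h0 hc.continuousOn
    refine ⟨dist (φ p.1) (φ p.2), ?_, fun a b hab => hmin (show (a, b) ∈ C from hab)⟩
    rw [dist_pos]
    intro h1
    have h2 := hi h1
    have h3 : 1 / ((n : ℝ) + 1) ≤ DD f n p.1 p.2 := hp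
    rw [h2, DD_self] at h3
    have h4 : (0 : ℝ) < 1 / ((n : ℝ) + 1) := by positivity
    linarith

/-- the inverse limit of compact spaces with planar bonding maps embeds in the ambient space -/
theorem exists_embedding [ProperSpace E] {e : ∀ n, T n → E} (he : ∀ n, Continuous (e n))
    (hei : ∀ n, Function.Injective (e n)) {f : ∀ n, T (n + 1) → T n}
    (hf : ∀ n, Continuous (f n)) (hp : ∀ n, Planar (e (n + 1)) (e n) (f n)) :
    ∃ Φ : Lim f → E, IsEmbedding Φ := by
  classical
  -- states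
  let P : ∀ n : ℕ, (E ≃ₜ E) × ℝ → Prop := fun n s => 0 < s.2 ∧
    ∀ a b, 1 / ((n : ℝ) + 1) ≤ DD f n a b → s.2 ≤ dist (s.1 (e n a)) (s.1 (e n b))
  let R : ∀ n : ℕ, (E ≃ₜ E) × ℝ → (E ≃ₜ E) × ℝ → Prop := fun n s t => t.2 ≤ s.2 / 2 ∧
    ∀ x, dist (t.1 (e (n + 1) x)) (s.1 (e n (f n x))) < s.2 / 8
  have h0 : ∃ s, P 0 s := by
    obtain ⟨s, hs, h⟩ := exists_sep hf 0 (he 0) (hei 0)
    exact ⟨(Homeomorph.refl E, s), hs, h⟩
  have hstep : ∀ n s, P n s → ∃ t, P (n + 1) t ∧ R n s t := by
    intro n s hs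
    obtain ⟨η, hη, h1⟩ := exists_mod (he n) s.1 (show 0 < s.2 / 8 by linarith [hs.1])
    obtain ⟨h, hh⟩ := hp n η hη
    obtain ⟨r, hr, h2⟩ := exists_sep hf (n + 1)
      (φ := fun x => (h.trans s.1) (e (n + 1) x)) ((h.trans s.1).continuous.comp (he (n + 1)))
      ((h.trans s.1).injective.comp (hei (n + 1)))
    refine ⟨(h.trans s.1, min r (s.2 / 2)), ⟨lt_min hr (by linarith [hs.1]), fun a b hab => ?_⟩,
      min_le_right _ _, fun x => h1 _ (f n x) (hh x)⟩
    exact le_trans (min_le_left _ _) (h2 a b hab)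
  choose! nxt hP hR using hstep
  obtain ⟨s0, hs0⟩ := h0
  let s : ℕ → (E ≃ₜ E) × ℝ := fun n => Nat.rec s0 (fun k t => nxt k t) n
  have hsP : ∀ n, P n (s n) := by
    intro n
    induction n with
    | zero => exact hs0
    | succ n ih => exact hP n (s n) ih
  have hsR : ∀ n, R n (s n) (s (n + 1)) := fun n => hR n (s n) (hsP n)
  -- approximations
  let ψ : ℕ → Lim f → E := fun n x => (s n).1 (e n (x.1 n))
  have hψ : ∀ n x, dist (ψ n x) (ψ (n + 1) x) ≤ (s n).2 / 8 := by
    intro n x
    have h1 := (hsR n).2 (x.1 (n + 1))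
    rw [x.2 n] at h1
    rw [dist_comm]
    exact h1.le
  have hs2 : ∀ n k, (s (n + k)).2 ≤ (s n).2 * (1 / 2) ^ k := by
    intro n k
    induction k with
    | zero => simp
    | succ k ih =>
      have h1 := (hsR (n + k)).1
      rw [pow_succ]
      have e1 : n + (k + 1) = n + k + 1 := by omega
      rw [e1]
      linarith
  have hshift : ∀ n x k, dist (ψ (n + k) x) (ψ (n + (k + 1)) x) ≤ (s n).2 / 8 * (1 / 2) ^ k := by
    intro n x k
    refine (hψ (n + k) x).trans ?_
    have := hs2 n k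
    linarith
  have hlim : ∀ x, ∃ l, Tendsto (fun n => ψ n x) atTop (𝓝 l) := by
    intro x
    have h1 : CauchySeq fun n => ψ n x := by
      refine cauchySeq_of_le_geometric (1 / 2) ((s 0).2 / 8) (by norm_num) fun n => ?_
      have := hshift 0 x n
      simpa using this
    exact cauchySeq_tendsto_of_complete h1
  choose Φ hΦ using hlim
  have hdist : ∀ n x, dist (ψ n x) (Φ x) ≤ (s n).2 / 4 := by
    intro n x
    have h1 : Tendsto (fun k => ψ (n + k) x) atTop (𝓝 (Φ x)) := by
      have := (tendsto_add_atTop_iff_nat n).2 (hΦ x)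
      simpa [add_comm] using this
    have h2 := dist_le_of_le_geometric_of_tendsto₀ (1 / 2) ((s n).2 / 8) (by norm_num)
      (hshift n x) h1
    have h3 : (s n).2 / 8 / (1 - 1 / 2) = (s n).2 / 4 := by ring
    rw [h3] at h2
    exact h2
  have hs0' : Tendsto (fun n => (s n).2) atTop (𝓝 0) := by
    have h1 : ∀ n, (s n).2 ≤ (s 0).2 * (1 / 2) ^ n := by
      intro n
      have := hs2 0 n
      simpa using this
    have h2 : Tendsto (fun n : ℕ => (s 0).2 * (1 / 2 : ℝ) ^ n) atTop (𝓝 0) := by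
      have := (tendsto_pow_atTop_nhds_zero_of_lt_one (r := (1 / 2 : ℝ)) (by norm_num)
        (by norm_num)).const_mul (s 0).2
      simpa using this
    exact squeeze_zero (fun n => (hsP n).1.le) h1 h2
  have hcont : Continuous Φ := by
    have hu : TendstoUniformly ψ Φ atTop := by
      rw [Metric.tendstoUniformly_iff]
      intro ε hε
      filter_upwards [(tendsto_order.1 hs0').2 ε hε] with n hn x
      rw [dist_comm]
      have := hdist n x
      have := (hsP n).1
      linarith
    refine hu.continuous (Eventually.frequently (Eventually.of_forall fun n => ?_))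
    exact (s n).1.continuous.comp ((he n).comp ((continuous_apply n).comp continuous_subtype_val))
  have hinj : Function.Injective Φ := by
    intro x y hxy
    by_contra hne
    have h1 : ∃ k, x.1 k ≠ y.1 k := by
      by_contra h2
      push Not at h2
      exact hne (Subtype.ext (funext h2))
    obtain ⟨k, hk⟩ := h1
    have hd : 0 < dist (x.1 k) (y.1 k) := dist_pos.2 hk
    obtain ⟨n₀, hn₀⟩ := exists_nat_one_div_lt hd
    have hn : 1 / (((max k n₀ : ℕ) : ℝ) + 1) ≤ DD f (max k n₀) (x.1 _) (y.1 _) := by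
      refine le_trans ?_ (DD_ge f x.2 y.2 (le_max_left k n₀))
      refine le_trans ?_ hn₀.le
      have : (n₀ : ℝ) ≤ (max k n₀ : ℕ) := by exact_mod_cast le_max_right k n₀
      gcongr
    have h3 := (hsP (max k n₀)).2 _ _ hn
    have h4 := hdist (max k n₀) x
    have h5 := hdist (max k n₀) y
    rw [← hxy] at h5
    have h6 := dist_triangle_right (ψ (max k n₀) x) (ψ (max k n₀) y) (Φ x)
    have h7 : (s (max k n₀)).2 ≤ dist (ψ (max k n₀) x) (ψ (max k n₀) y) := h3
    have h8 := (hsP (max k n₀)).1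
    linarith
  have hclosed : IsClosed (Lim f) := by
    have : Lim f = ⋂ n, {x | f n (x (n + 1)) = x n} := by
      ext x
      simp [Lim]
    rw [this]
    exact isClosed_iInter fun n =>
      isClosed_eq ((hf n).comp (continuous_apply (n + 1))) (continuous_apply n)
  haveI : CompactSpace (Lim f) := isCompact_iff_compactSpace.1 hclosed.isCompact
  exact ⟨Φ, (hcont.isClosedEmbedding hinj).isEmbedding⟩

end

end Pool.Agent.PL
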