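import Mathlib

/-!
# Homeomorphisms of the plane in polar coordinates

`pol d r v` is the point with radius `r` and angle `v`, where a full turn is `d`.
-/

set_option autoImplicit false

namespace Pool.Agent.PL

open Set Filter Topology

/-- polar coordinates; a full turn is `d` -/
noncomputable def pol (d : ℕ) (r v : ℝ) : ℂ :=
  (r : ℂ) * Complex.exp (((2 * Real.pi * v / d : ℝ) : ℂ) * Complex.I)

variable {d : ℕ}

theorem continuous_pol : Continuous fun p : ℝ × ℝ => pol d p.1 p.2 := by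
  unfold pol
  fun_prop

@[simp] theorem norm_pol (r v : ℝ) : ‖pol d r v‖ = |r| := by
  rw [pol, norm_mul, Complex.norm_exp_ofReal_mul_I, mul_one, Complex.norm_real, Real.norm_eq_abs]

@[simp] theorem pol_zero (v : ℝ) : pol d 0 v = 0 := by
  simp [pol]

theorem pol_add_mul (hd : 0 < d) (r v : ℝ) (k : ℤ) : pol d r (v + k * d) = pol d r v := by
  have hd' : (d : ℝ) ≠ 0 := by positivity
  unfold pol
  have h : 2 * Real.pi * (v + k * d) / d = 2 * Real.pi * v / d + k * (2 * Real.pi) := by
    field_simp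
  rw [h]
  push_cast
  rw [add_mul, Complex.exp_add]
  have h2 : Complex.exp ((k : ℂ) * (2 * (Real.pi : ℂ)) * Complex.I) = 1 := by
    rw [show (k : ℂ) * (2 * (Real.pi : ℂ)) * Complex.I = k * (2 * Real.pi * Complex.I) by ring]
    exact Complex.exp_int_mul_two_pi_mul_I k
  rw [h2, mul_one]

theorem pol_add_nat (hd : 0 < d) (r v : ℝ) (k : ℕ) : pol d r (v + k * d) = pol d r v := by
  have := pol_add_mul hd r v (k : ℤ)
  simpa using this

theorem pol_add_self (hd : 0 < d) (r v : ℝ) : pol d r (v + d) = pol d r v := by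
  have := pol_add_mul hd r v 1
  simpa using this

/-- every real is congruent to an element of `[0, d)` -/
theorem exists_red (hd : 0 < d) (v : ℝ) : ∃ (w : ℝ) (k : ℤ), 0 ≤ w ∧ w < d ∧ v = w + k * d := by
  have hd' : (0 : ℝ) < d := by positivity
  refine ⟨toIcoMod hd' 0 v, toIcoDiv hd' 0 v, ?_, ?_, ?_⟩
  · exact (toIcoMod_mem_Ico hd' 0 v).1
  · simpa using (toIcoMod_mem_Ico hd' 0 v).2
  · have := toIcoMod_add_toIcoDiv_zsmul hd' 0 v
    rw [zsmul_eq_mul] at this
    exact this.symm

theorem exists_pol (hd : 0 < d) (z : ℂ) : ∃ r v : ℝ, 0 ≤ r ∧ 0 ≤ v ∧ v < d ∧ z = pol d r v := by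
  have hd' : (0 : ℝ) < d := by positivity
  obtain ⟨w, k, h0, h1, h2⟩ := exists_red hd (Complex.arg z * d / (2 * Real.pi))
  refine ⟨‖z‖, w, norm_nonneg z, h0, h1, ?_⟩
  rw [← pol_add_mul hd _ _ k, ← h2, pol]
  rw [show 2 * Real.pi * (Complex.arg z * d / (2 * Real.pi)) / d = Complex.arg z by
    field_simp]
  exact (Complex.norm_mul_exp_arg_mul_I z).symm

theorem pol_inj (hd : 0 < d) {r r' v v' : ℝ} (hr : 0 < r) (hr' : 0 ≤ r')
    (h : pol d r v = pol d r' v') : r = r' ∧ ∃ k : ℤ, v' = v + k * d := by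
  have hd' : (d : ℝ) ≠ 0 := by positivity
  have h1 : r = r' := by
    have := congrArg norm h
    rwa [norm_pol, norm_pol, abs_of_pos hr, abs_of_nonneg hr'] at this
  subst h1
  refine ⟨rfl, ?_⟩
  unfold pol at h
  have h2 := mul_left_cancel₀ (by exact_mod_cast hr.ne' : (r : ℂ) ≠ 0) h
  rw [Complex.exp_eq_exp_iff_exists_int] at h2
  obtain ⟨n, hn⟩ := h2
  refine ⟨-n, ?_⟩
  have h3 : ((2 * Real.pi * v / d : ℝ) : ℂ) =
      ((2 * Real.pi * v' / d : ℝ) : ℂ) + n * (2 * Real.pi) := by
    have hI : Complex.I ≠ 0 := Complex.I_ne_zero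
    apply mul_right_cancel₀ hI
    rw [hn]
    ring
  have h4 : 2 * Real.pi * v / d = 2 * Real.pi * v' / d + n * (2 * Real.pi) := by
    exact_mod_cast h3
  have hpi := Real.pi_ne_zero
  field_simp at h4
  push_cast
  linarith

theorem dist_pol_le (a b v w : ℝ) :
    dist (pol d a v) (pol d b w) ≤ |a - b| + |b| * (2 * Real.pi * |v - w| / d) := by
  have h1 : dist (pol d a v) (pol d b v) ≤ |a - b| := by
    rw [dist_eq_norm]
    have : pol d a v - pol d b v = pol d (a - b) v := by
      unfold pol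
      push_cast
      ring
    rw [this, norm_pol]
  have h2 : dist (pol d b v) (pol d b w) ≤ |b| * (2 * Real.pi * |v - w| / d) := by
    rw [dist_eq_norm]
    unfold pol
    rw [← mul_sub, norm_mul, Complex.norm_real, Real.norm_eq_abs]
    apply mul_le_mul_of_nonneg_left _ (abs_nonneg b)
    have h3 := Real.norm_exp_I_mul_ofReal_sub_one_le (x := 2 * Real.pi * v / d - 2 * Real.pi * w / d)
    have h4 : Complex.exp (((2 * Real.pi * v / d : ℝ) : ℂ) * Complex.I) -
        Complex.exp (((2 * Real.pi * w / d : ℝ) : ℂ) * Complex.I) =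
        Complex.exp (((2 * Real.pi * w / d : ℝ) : ℂ) * Complex.I) *
        (Complex.exp (Complex.I * ((2 * Real.pi * v / d - 2 * Real.pi * w / d : ℝ) : ℂ)) - 1) := by
      rw [mul_sub, ← Complex.exp_add, mul_one]
      congr 2
      push_cast
      ring
    rw [h4, norm_mul, Complex.norm_exp_ofReal_mul_I, one_mul]
    refine h3.trans (le_of_eq ?_)
    rw [Real.norm_eq_abs, ← sub_div, ← mul_sub, abs_div, abs_mul, abs_of_pos Real.two_pi_pos,
      Nat.abs_cast]
  exact (dist_triangle _ (pol d b v) _).trans (add_le_add h1 h2)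

/-- a continuous bijection of the plane which is proper is a homeomorphism -/
theorem exists_homeo_of_bij {f : ℂ → ℂ} (hf : Continuous f) (hb : Function.Bijective f) (C : ℝ)
    (hC : ∀ z, ‖z‖ - C ≤ ‖f z‖) : ∃ h : ℂ ≃ₜ ℂ, ∀ z, h z = f z := by
  have h1 : Tendsto f (cocompact ℂ) (cocompact ℂ) := by
    rw [← Metric.cobounded_eq_cocompact, ← tendsto_norm_atTop_iff_cobounded]
    apply tendsto_atTop_mono hC
    exact tendsto_atTop_add_const_right _ _ tendsto_norm_cobounded_atTop
  have h2 : IsProperMap f := isProperMap_iff_tendsto_cocompact.2 ⟨hf, h1⟩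
  exact ⟨(Equiv.ofBijective f hb).toHomeomorphOfContinuousClosed hf h2.isClosedMap, fun z => rfl⟩

/-- functions on the plane given in polar coordinates -/
theorem exists_descend (hd : 0 < d) {F : ℝ → ℝ → ℂ} (hF : Continuous fun p : ℝ × ℝ => F p.1 p.2)
    (h0 : ∀ v, F 0 v = F 0 0) (hper : ∀ r, F r 0 = F r d) :
    ∃ f : ℂ → ℂ, Continuous f ∧ ∀ r v : ℝ, 0 ≤ r → 0 ≤ v → v ≤ d → f (pol d r v) = F r v := by
  have hd' : (0 : ℝ) < d := by positivity
  set S : Set (ℝ × ℝ) := Ici 0 ×ˢ Icc 0 (d : ℝ) with hS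
  have hSc : IsClosed S := isClosed_Ici.prod isClosed_Icc
  set π : S → ℂ := fun p => pol d p.1.1 p.1.2 with hπ
  have hπc : Continuous π := continuous_pol.comp continuous_subtype_val
  have hprop : IsProperMap π := by
    rw [isProperMap_iff_isCompact_preimage]
    refine ⟨hπc, fun K hK => ?_⟩
    obtain ⟨R, hR⟩ := hK.isBounded.subset_closedBall 0
    rw [hSc.isClosedEmbedding_subtypeVal.isCompact_iff]
    apply IsCompact.of_isClosed_subset (isCompact_Icc.prod isCompact_Icc :
      IsCompact (Icc 0 R ×ˢ Icc 0 (d : ℝ)))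
    · exact hSc.isClosedEmbedding_subtypeVal.isClosedMap _ (hK.isClosed.preimage hπc)
    · rintro _ ⟨p, hp, rfl⟩
      have h1 : (0 : ℝ) ≤ p.1.1 := p.2.1
      have h2 := hR hp
      rw [mem_closedBall_zero_iff, hπ, norm_pol, abs_of_nonneg h1] at h2
      exact ⟨⟨h1, h2⟩, p.2.2⟩
  have hsurj : Function.Surjective π := by
    intro z
    obtain ⟨r, v, hr, hv, hv', rfl⟩ := exists_pol hd z
    exact ⟨⟨(r, v), hr, hv, hv'.le⟩, rfl⟩
  have hq : IsQuotientMap π := hprop.isClosedMap.isQuotientMap hπc hsurj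
  have hcompat : ∀ p q : S, π p = π q → F p.1.1 p.1.2 = F q.1.1 q.1.2 := by
    rintro ⟨⟨r, v⟩, hr, hv⟩ ⟨⟨r', v'⟩, hr', hv'⟩ h
    simp only [mem_Ici, mem_Icc] at hr hv hr' hv'
    simp only [hπ] at h
    rcases hr.eq_or_lt with h1 | h1
    · have h2 : r' = 0 := by
        have := congrArg norm h
        rw [norm_pol, norm_pol, ← h1, abs_zero, eq_comm, abs_eq_zero] at this
        exact this
      simp only [← h1, h2]
      rw [h0 v, h0 v']
    · obtain ⟨h2, k, hk⟩ := pol_inj hd h1 hr' h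
      simp only [h2] at *
      have hk1 : (k : ℝ) * d ≤ d := by linarith [hv.1, hv'.2]
      have hk2 : -(d : ℝ) ≤ k * d := by linarith [hv.2, hv'.1]
      have hk3 : (k : ℝ) ≤ 1 := by nlinarith
      have hk4 : (-1 : ℝ) ≤ k := by nlinarith
      have hk5 : k ≤ 1 := by exact_mod_cast hk3
      have hk6 : -1 ≤ k := by exact_mod_cast hk4
      interval_cases k
      · have : v = d := by push_cast at hk; linarith [hv.2, hv'.1]
        have h3 : v' = 0 := by push_cast at hk; linarith
        rw [this, h3]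
        exact (hper _).symm
      · have : v' = v := by push_cast at hk; linarith
        rw [this]
      · have : v = 0 := by push_cast at hk; linarith [hv.1, hv'.2]
        have h3 : v' = d := by push_cast at hk; linarith
        rw [this, h3]
        exact hper _
  choose g hg using hsurj
  refine ⟨fun z => F (g z).1.1 (g z).1.2, ?_, ?_⟩
  · rw [hq.continuous_iff]
    have : ((fun z => F (g z).1.1 (g z).1.2) ∘ π) = fun p : S => F p.1.1 p.1.2 := by
      funext p
      exact hcompat _ _ (hg (π p))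
    rw [this]
    exact hF.comp continuous_subtype_val
  · intro r v hr hv hv'
    exact hcompat _ ⟨(r, v), hr, hv, hv'⟩ (hg _)

/-- radial homeomorphisms -/
theorem exists_radial (hd : 0 < d) {q : ℝ → ℝ → ℝ} (hq : Continuous fun p : ℝ × ℝ => q p.1 p.2)
    (h0 : ∀ v, q 0 v = 0) (hper : ∀ r, q r 0 = q r d)
    (hmono : ∀ v : ℝ, 0 ≤ v → v ≤ d → StrictMonoOn (fun r => q r v) (Ici 0))
    (C : ℝ) (hC : ∀ r v : ℝ, 0 ≤ r → 0 ≤ v → v ≤ d → r - C ≤ q r v) :
    ∃ h : ℂ ≃ₜ ℂ, ∀ r v : ℝ, 0 ≤ r → 0 ≤ v → v ≤ d → h (pol d r v) = pol d (q r v) v := by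
  have hd' : (0 : ℝ) < d := by positivity
  have hnn : ∀ r v : ℝ, 0 ≤ r → 0 ≤ v → v ≤ d → 0 ≤ q r v := by
    intro r v hr hv hv'
    rw [← h0 v]
    exact (hmono v hv hv').monotoneOn (self_mem_Ici) hr hr
  obtain ⟨f, hf, hfp⟩ := exists_descend hd (F := fun r v => pol d (q r v) v)
    (continuous_pol.comp (hq.prodMk continuous_snd))
    (fun v => by simp only [h0, pol_zero])
    (fun r => by
      have := pol_add_self hd (q r d) 0
      rw [zero_add] at this
      simp only [hper r]
      exact this.symm)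
  have hinj : Function.Injective f := by
    intro z z' hzz
    obtain ⟨r, v, hr, hv, hv', rfl⟩ := exists_pol hd z
    obtain ⟨r', w, hr', hw, hw', rfl⟩ := exists_pol hd z'
    rw [hfp r v hr hv hv'.le, hfp r' w hr' hw hw'.le] at hzz
    rcases (hnn r v hr hv hv'.le).eq_or_lt with h1 | h1
    · have h2 : r = 0 := (hmono v hv hv'.le).injOn hr self_mem_Ici (by
        rw [h0, ← h1])
      have h3 : q r' w = 0 := by
        have := congrArg norm hzz
        rw [norm_pol, norm_pol, ← h1, abs_zero, eq_comm, abs_eq_zero] at this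
        exact this
      have h4 : r' = 0 := (hmono w hw hw'.le).injOn hr' self_mem_Ici (by
        rw [h0, h3])
      rw [h2, h4, pol_zero, pol_zero]
    · obtain ⟨h2, k, hk⟩ := pol_inj hd h1 (hnn r' w hr' hw hw'.le) hzz
      have hk1 : (k : ℝ) * d < d := by linarith
      have hk2 : -(d : ℝ) < k * d := by linarith
      have hk3 : (k : ℝ) < 1 := by nlinarith
      have hk4 : (-1 : ℝ) < k := by nlinarith
      have hk5 : k < 1 := by exact_mod_cast hk3
      have hk6 : -1 < k := by exact_mod_cast hk4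
      have hk7 : k = 0 := by omega
      subst hk7
      have hvw : w = v := by push_cast at hk; linarith
      subst hvw
      have := (hmono w hw hw'.le).injOn hr hr' h2
      rw [this]
  have hsurj : Function.Surjective f := by
    intro z
    obtain ⟨s, v, hs, hv, hv', rfl⟩ := exists_pol hd z
    have hcont : Continuous fun r => q r v := hq.comp (continuous_id.prodMk continuous_const)
    have h1 : s ∈ Icc (q 0 v) (q (s + |C|) v) := by
      refine ⟨by rw [h0]; exact hs, ?_⟩
      have := hC (s + |C|) v (by positivity) hv hv'.le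
      linarith [le_abs_self C]
    obtain ⟨r, hr, hrs⟩ := intermediate_value_Icc (by positivity) hcont.continuousOn h1
    refine ⟨pol d r v, ?_⟩
    rw [hfp r v hr.1 hv hv'.le]
    simp only at hrs
    rw [hrs]
  obtain ⟨h, hh⟩ := exists_homeo_of_bij hf ⟨hinj, hsurj⟩ C (by
    intro z
    obtain ⟨r, v, hr, hv, hv', rfl⟩ := exists_pol hd z
    rw [hfp r v hr hv hv'.le, norm_pol, norm_pol, abs_of_nonneg hr]
    exact (hC r v hr hv hv'.le).trans (le_abs_self _))
  exact ⟨h, fun r v hr hv hv' => by rw [hh, hfp r v hr hv hv']⟩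

/-- angular homeomorphisms -/
theorem exists_angular (hd : 0 < d) {g : ℝ → ℝ → ℝ} (hg : Continuous fun p : ℝ × ℝ => g p.1 p.2)
    (g0 : ∀ r, g r 0 = 0) (gd : ∀ r, g r d = d)
    (hmono : ∀ r, 0 ≤ r → StrictMonoOn (g r) (Icc 0 (d : ℝ))) :
    ∃ h : ℂ ≃ₜ ℂ, ∀ r v : ℝ, 0 ≤ r → 0 ≤ v → v ≤ d → h (pol d r v) = pol d r (g r v) := by
  have hd' : (0 : ℝ) < d := by positivity
  obtain ⟨f, hf, hfp⟩ := exists_descend hd (F := fun r v => pol d r (g r v))
    (continuous_pol.comp (continuous_fst.prodMk hg))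
    (fun v => by simp only [pol_zero])
    (fun r => by
      have := pol_add_self hd r 0
      rw [zero_add] at this
      simp only [g0, gd]
      exact this.symm)
  have hrange : ∀ r v : ℝ, 0 ≤ r → 0 ≤ v → v < d → 0 ≤ g r v ∧ g r v < d := by
    intro r v hr hv hv'
    constructor
    · rw [← g0 r]
      exact (hmono r hr).monotoneOn ⟨le_rfl, hd'.le⟩ ⟨hv, hv'.le⟩ hv
    · conv_rhs => rw [← gd r]
      exact hmono r hr ⟨hv, hv'.le⟩ ⟨hd'.le, le_rfl⟩ hv'
  have hinj : Function.Injective f := by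
    intro z z' hzz
    obtain ⟨r, v, hr, hv, hv', rfl⟩ := exists_pol hd z
    obtain ⟨r', w, hr', hw, hw', rfl⟩ := exists_pol hd z'
    rw [hfp r v hr hv hv'.le, hfp r' w hr' hw hw'.le] at hzz
    rcases hr.eq_or_lt with h1 | h1
    · have h2 : r' = 0 := by
        have := congrArg norm hzz
        rw [norm_pol, norm_pol, ← h1, abs_zero, eq_comm, abs_eq_zero] at this
        exact this
      rw [← h1, h2, pol_zero, pol_zero]
    · obtain ⟨h2, k, hk⟩ := pol_inj hd h1 hr' hzz
      subst h2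
      obtain ⟨a1, a2⟩ := hrange r v hr hv hv'
      obtain ⟨a3, a4⟩ := hrange r w hr hw hw'
      have hk1 : (k : ℝ) * d < d := by linarith
      have hk2 : -(d : ℝ) < k * d := by linarith
      have hk3 : (k : ℝ) < 1 := by nlinarith
      have hk4 : (-1 : ℝ) < k := by nlinarith
      have hk5 : k < 1 := by exact_mod_cast hk3
      have hk6 : -1 < k := by exact_mod_cast hk4
      have hk7 : k = 0 := by omega
      subst hk7
      have hvw : g r w = g r v := by push_cast at hk; linarith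
      have := (hmono r hr).injOn ⟨hw, hw'.le⟩ ⟨hv, hv'.le⟩ hvw
      rw [this]
  have hsurj : Function.Surjective f := by
    intro z
    obtain ⟨r, v, hr, hv, hv', rfl⟩ := exists_pol hd z
    have hcont : Continuous fun w => g r w := hg.comp (continuous_const.prodMk continuous_id)
    have h1 : v ∈ Icc (g r 0) (g r d) := by
      rw [g0, gd]
      exact ⟨hv, hv'.le⟩
    obtain ⟨w, hw, hwv⟩ := intermediate_value_Icc hd'.le hcont.continuousOn h1
    refine ⟨pol d r w, ?_⟩
    rw [hfp r w hr hw.1 hw.2]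
    simp only at hwv
    rw [hwv]
  obtain ⟨h, hh⟩ := exists_homeo_of_bij hf ⟨hinj, hsurj⟩ 0 (by
    intro z
    obtain ⟨r, v, hr, hv, hv', rfl⟩ := exists_pol hd z
    rw [hfp r v hr hv hv'.le, norm_pol, norm_pol, sub_zero])
  exact ⟨h, fun r v hr hv hv' => by rw [hh, hfp r v hr hv hv']⟩

/-- twists -/
theorem exists_twist {ω : ℝ → ℝ} (hω : Continuous ω) :
    ∃ h : ℂ ≃ₜ ℂ, ∀ r v, 0 ≤ r → h (pol d r v) = pol d r (v + ω r) := by
  refine ⟨⟨⟨fun z => z * Complex.exp (((2 * Real.pi * ω ‖z‖ / d : ℝ) : ℂ) * Complex.I),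
    fun z => z * Complex.exp (((-(2 * Real.pi * ω ‖z‖ / d) : ℝ) : ℂ) * Complex.I), ?_, ?_⟩, ?_, ?_⟩,
    ?_⟩
  · intro z
    simp only [norm_mul, Complex.norm_exp_ofReal_mul_I, mul_one]
    rw [mul_assoc, ← Complex.exp_add, ← add_mul, ← Complex.ofReal_add, add_neg_cancel]
    simp
  · intro z
    simp only [norm_mul, Complex.norm_exp_ofReal_mul_I, mul_one]
    rw [mul_assoc, ← Complex.exp_add, ← add_mul, ← Complex.ofReal_add, neg_add_cancel]
    simp
  · simp only
    fun_prop
  · simp only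
    fun_prop
  · intro r v hr
    change pol d r v * Complex.exp (((2 * Real.pi * ω ‖pol d r v‖ / d : ℝ) : ℂ) * Complex.I) = _
    rw [norm_pol, abs_of_nonneg hr]
    unfold pol
    rw [mul_assoc, ← Complex.exp_add, ← add_mul, ← Complex.ofReal_add]
    congr 4
    ring

end Pool.Agent.PL
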